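import Pool.Agent.Lib.MP_8646f6_al.Twists

namespace Pool.Agent.Results.MP_8646f6_al.TwistsNotCAT0

open Pool.Agent.Lib.MP_8646f6_al Pool.Agent.Lib.MP_8646f6_al.Defs

universe u

/-- For every nontrivial `v` in the commutator subgroup of the free group of rank `n`, the mapping
torus of the twist `s ↦ s v` of the free group of rank `n + 1` admits a coarse median (so it is
unbranched), and no finite index subgroup of it embeds in a group that acts geometrically on a
CAT(0) space. -/
theorem result (n : ℕ) (v : FreeGroup (Fin n)) (hv : v ∈ commutator (FreeGroup (Fin n)))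
    (h1 : v ≠ 1) : ∃ Φ : MulAut (FreeGroup (Fin (n + 1))),
    (∀ i : Fin n, Φ (FreeGroup.of i.succ) = FreeGroup.of i.succ) ∧
    Φ (FreeGroup.of 0) = FreeGroup.of 0 * FreeGroup.map Fin.succ v ∧
    IsCoarseMedianGroup (MappingTorus Φ) ∧
    ∀ (H : Subgroup (MappingTorus Φ)) [H.FiniteIndex] (G : Type) [Group G] (f : H →* G),
      Function.Injective f → ∀ (X : Type u) [MetricSpace X] [Nonempty X] [MulAction G X],
        IsCAT0 X → ¬ IsGeometricAction G X := by
  obtain ⟨Φ, hf, hs⟩ := Gen.exists_twist v
  exact ⟨Φ, hf, hs, Gen.twist_coarseMedian h1 hf hs,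
    fun H _ _ _ f hi X _ _ _ hX => Gen.twist_not_geometric h1 hv hf hs H f hi X hX⟩

end Pool.Agent.Results.MP_8646f6_al.TwistsNotCAT0
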